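import Pool.Agent.Helper27.VF.Goals

/-!
# Packet VF-TOC: components outside the torso have finitely many neighbours
-/

set_option autoImplicit false

namespace Pool.Agent.Helper40.VF

open Pool.Agent.Helper27.VF

universe u

theorem toc : PthStmt.{u} → ToaStmt.{u} → OrbStmt.{u} → FrdStmt.{u} → TocStmt.{u} := by
  intro pth toa orb frd A W _ _ G G₀ w p h k hk tf z hz
  have hcut : ∀ d ∈ DD A G p k, IsCut G d := fun d hd => hd.1.1
  have hsepK : ∀ d ∈ DD A G p k, ∀ x, x ∈ sep d → x ∈ Kp A G p k :=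
    fun d hd x hx => Or.inr ⟨d, hd, hx⟩
  have hw : ∀ d ∈ DD A G p k, w ∉ d.2 := by
    intro d hd hwd
    have h1 : Inn p (1 : A) d.2 := fact1' h (hcut d hd) (by rwa [one_smul])
    exact (inn_snd h (hcut d hd)).1 h1 hd.2.1
  -- `z` is on the second side of some `d`
  obtain ⟨d, hd, hzd⟩ : ∃ d ∈ DD A G p k, z ∈ d.2 := by
    by_contra hc
    push Not at hc
    exact hz (Or.inl hc)
  have hout : ∀ z', Out G (Kp A G p k) z z' → z' ∈ d.2 := by
    intro z' hz'
    unfold Out at hz'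
    induction hz' with
    | refl => exact hzd
    | tail _ hab ih =>
      rename_i a b _
      obtain ⟨hadj, hb⟩ := hab
      by_contra hb2
      by_cases hb1 : b ∈ d.1
      · exact (hcut d hd).no b hb1 a ih hadj.symm
      · exact hb (hsepK d hd b (mem_sep.2 ⟨hb1, hb2⟩))
  -- finitely many vertices of the torso in `d.2`
  obtain ⟨F, hF, -, hFK⟩ := (toa A W G G₀ w p h k hk tf).2
  obtain ⟨-, -, -, orb4⟩ := orb A W G G₀ w p h k hk
  have frd2 := (frd A W G G₀ w p h k hk tf).2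
  have hGf : ∀ f : W, {g : A | g ∈ BB A G p k ∧ g • f ∈ d.2}.Finite := by
    intro f
    have hinj : Set.InjOn (fun g : A => tr g⁻¹ d) {g : A | g ∈ BB A G p k ∧ g • f ∈ d.2} := by
      intro g _ g' _ hgg
      have h1 : tr g (tr g⁻¹ d) = tr g (tr g'⁻¹ d) := congrArg (tr g) hgg
      rw [tr_tr, tr_tr, mul_inv_cancel, tr_one] at h1
      have h2 := frd2 (g * g'⁻¹) d hd h1.symm
      exact mul_inv_eq_one.1 h2
    refine Set.Finite.of_finite_image ?_ hinj
    refine (pth A W G G₀ w p h k hk w f).subset ?_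
    rintro e ⟨g, ⟨hg, hgf⟩, rfl⟩
    have he : tr g⁻¹ d ∈ DD A G p k := orb4 g⁻¹ (inv_mem hg) d hd
    refine ⟨he.1, hw _ he, ?_⟩
    intro hf1
    refine (hcut _ he).disj f hf1 ?_
    show g⁻¹⁻¹ • f ∈ d.2
    rwa [inv_inv]
  have hfin : {y | y ∈ Kp A G p k ∧ y ∈ d.2}.Finite := by
    refine (hF.biUnion fun f _ => (hGf f).image fun g => g • f).subset ?_
    rintro y ⟨hyK, hyd⟩
    obtain ⟨g, hg, f, hf, rfl⟩ := hFK y hyK
    exact Set.mem_biUnion hf ⟨g, ⟨hg, hyd⟩, rfl⟩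
  refine (hfin.union (hcut d hd).fin).subset ?_
  rintro y ⟨hyK, z', hz', hadj⟩
  have hz2 := hout z' hz'
  by_cases hy2 : y ∈ d.2
  · exact Or.inl ⟨hyK, hy2⟩
  · right
    refine mem_sep.2 ⟨fun hy1 => ?_, hy2⟩
    exact (hcut d hd).no y hy1 z' hz2 hadj.symm

end Pool.Agent.Helper40.VF
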